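import Pool.Agent.Q163.CL.Dist
import Pool.Agent.Q163.BC.Flip

set_option autoImplicit false

/-!
# The Gaussian law of Good and Churchhouse for almost every completely multiplicative twist

Let `χ` be the completely multiplicative function with independent fair signs at the primes. Almost surely
the sums of `μ χ` over windows of length `H`, divided by `√(H/ζ(2))`, converge in distribution to the
standard normal law when the centre `x` is uniform on `[X, 2X]`, for EVERY `H = H(X)` with
`X ^ ε < H < X ^ (1 - ε)`; here `χ` is fixed and only `x` is random. This also holds for all the functions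
`μ χ'` with `χ'` equal to `χ` at all but finitely many primes, and for `g μ χ` with any function `g` of
signs.
-/

namespace Pool.Agent.Results.MP_4f18df_nt.AlmostEveryTwist

open Finset Filter Topology MeasureTheory Pool.Agent.Q163.RP Pool.Agent.Q163.RX Pool.Agent.Q163.GC
  Pool.Agent.Q163.BC Pool.Agent.Q163.CL

/-- the completely multiplicative function with the value `1` or `-1` at the prime `p` according to `ω p` -/
noncomputable def chi (ω : ℕ → Bool) (n : ℕ) : ℝ :=
  ∏ p ∈ n.primeFactors, (if ω p = true then 1 else -1) ^ n.factorization p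

/-- the Moebius function -/
noncomputable def moeb (n : ℕ) : ℝ := ((ArithmeticFunction.moebius n : ℤ) : ℝ)

/-- the statement of the problem for a function `f` in place of the Moebius function: for every
`ε ∈ (0, 1/2)` and every `H` with `X ^ ε < H X < X ^ (1 - ε)`, the proportion of the `x ∈ [X, 2X]` for which
the sum of `f` over `|n - x| < H / 2`, divided by `√(H/ζ(2))`, is at most `t` tends to the distribution
function of the standard normal law at `t` -/
def GaussianLaw (f : ℕ → ℝ) : Prop :=
  ∀ ε : ℝ, 0 < ε → ε < 1 / 2 →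
    ∀ H : ℝ → ℝ,
      (∀ᶠ X in Filter.atTop, X ^ ε < H X ∧ H X < X ^ (1 - ε)) →
      ∀ t : ℝ,
        Filter.Tendsto
          (fun X : ℝ =>
            (MeasureTheory.volume
              {x : ℝ | x ∈ Set.Icc X (2 * X) ∧
                (∑ n ∈ (Finset.range (⌊x + H X⌋₊ + 1)).filter
                    (fun n : ℕ => |(n : ℝ) - x| < H X / 2), f n)
                  / Real.sqrt (H X / (Real.pi ^ 2 / 6)) ≤ t}).toReal / X)
          Filter.atTop
          (nhds (ProbabilityTheory.cdf (ProbabilityTheory.gaussianReal 0 1) t))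

lemma ch_eq (ω : ℕ → Bool) (n : ℕ) : ch ω n = chi ω n := by
  unfold ch chi mult sg es sgn
  refine Finset.prod_congr rfl fun p _ => ?_
  rw [if_pos (Set.mem_univ p)]

lemma sum_floor (f : ℕ → ℝ) (x H : ℝ) :
    ∑ n ∈ (Finset.range (⌊x + H⌋₊ + 1)).filter (fun n : ℕ => |(n : ℝ) - x| < H / 2), f n =
      Mf f x H := by
  unfold Mf
  refine Finset.sum_congr ?_ fun _ _ => rfl
  ext n
  rw [Finset.mem_filter, Finset.mem_filter, Finset.mem_range, Finset.mem_range]
  refine and_congr_left fun hc => ?_
  have h1 : (n : ℝ) ≤ x + H := by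
    have h3 := (abs_lt.1 hc).2
    have h4 := lt_of_le_of_lt (abs_nonneg _) hc
    linarith
  constructor
  · intro _
    have h2 : (n : ℝ) ≤ ⌈x + H⌉₊ := h1.trans (Nat.le_ceil _)
    have : n ≤ ⌈x + H⌉₊ := by exact_mod_cast h2
    omega
  · intro _
    have := Nat.le_floor h1
    omega

lemma gl_of {f : ℕ → ℝ} (hU : UConv f) : GaussianLaw f := by
  intro ε hε hε1 H hH t
  have h1 := law hU ε hε hε1 H hH t
  refine h1.congr fun X => ?_
  have e1 : ∀ x, (∑ n ∈ (Finset.range (⌊x + H X⌋₊ + 1)).filter
      (fun n : ℕ => |(n : ℝ) - x| < H X / 2), f n) / Real.sqrt (H X / (Real.pi ^ 2 / 6)) =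
      Zn f (H X) x := by
    intro x
    rw [sum_floor]
    unfold Zn kap
    congr 2
    field_simp
  simp_rw [e1]

theorem ae_sign (g : ℕ → ℝ) (hg : ∀ n, g n = 1 ∨ g n = -1) :
    ∀ᵐ ω ∂cm, GaussianLaw fun n => moeb n * g n * chi ω n := by
  filter_upwards [ae_uconv (fun n => moeb n * g n) (fun n => by
    have h1 : g n ^ 2 = 1 := by
      rcases hg n with h | h <;> rw [h] <;> norm_num
    rw [mul_pow, h1, mul_one]
    rfl)] with ω hω
  have h1 : (fun n => moeb n * g n * chi ω n) = fun n => moeb n * g n * ch ω n := by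
    funext n
    rw [ch_eq]
  rw [h1]
  exact gl_of hω.2

/-- an almost sure property holds for all finite modifications -/
theorem ae_finite {P : (ℕ → Bool) → Prop} (h : ∀ᵐ ω ∂cm, P ω) :
    ∀ᵐ ω ∂cm, ∀ ω' : ℕ → Bool, {p | ω' p ≠ ω p}.Finite → P ω' := by
  have h1 : ∀ᵐ ω ∂cm, ∀ S : Finset ℕ, P (flS (S : Set ℕ) ω) := by
    rw [ae_all_iff]
    intro S
    exact (mp_flS (S : Set ℕ)).quasiMeasurePreserving.ae h
  filter_upwards [h1] with ω hω ω' hf
  have h2 := hω hf.toFinset
  have h3 : flS ((hf.toFinset : Finset ℕ) : Set ℕ) ω = ω' := by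
    funext p
    unfold flS
    rw [Set.Finite.coe_toFinset]
    by_cases hp : ω' p = ω p
    · rw [if_neg (by simp [hp])]
      exact hp.symm
    · rw [if_pos (by simpa using hp)]
      cases hω : ω p <;> cases hω' : ω' p <;> simp_all
  rwa [h3] at h2

theorem ae_one : ∀ᵐ ω ∂cm, GaussianLaw fun n => moeb n * chi ω n := by
  filter_upwards [ae_sign (fun _ => 1) (fun _ => Or.inl rfl)] with ω hω
  simpa using hω

/-- **The Gaussian law in short intervals for almost every completely multiplicative twist.** -/
theorem result :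
    -- (1) almost every function and all its finite modifications
    (∀ᵐ ω ∂cm, ∀ ω' : ℕ → Bool, {p | ω' p ≠ ω p}.Finite →
      GaussianLaw fun n => moeb n * chi ω' n) ∧
    -- (2) the values at the small primes can be those of the Moebius function itself
    (∀ y : ℕ, ∃ g : ℕ → ℝ, (∀ n, g n = 1 ∨ g n = -1) ∧
      (∀ m n, 1 ≤ m → 1 ≤ n → g (m * n) = g m * g n) ∧ (∀ p : ℕ, p.Prime → p ≤ y → g p = 1) ∧
      GaussianLaw fun n => moeb n * g n) ∧
    -- (3) arbitrary deterministic signs
    (∀ g : ℕ → ℝ, (∀ n, g n = 1 ∨ g n = -1) →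
      ∀ᵐ ω ∂cm, GaussianLaw fun n => moeb n * g n * chi ω n) := by
  refine ⟨ae_finite ae_one, ?_, ae_sign⟩
  intro y
  obtain ⟨ω, hω⟩ := (ae_finite ae_one).exists
  set ω' : ℕ → Bool := fun p => if p ≤ y then true else ω p with hω'
  have h1 := hω ω' (by
    refine (Set.finite_Iic y).subset fun p hp => ?_
    by_contra hc
    simp only [Set.mem_Iic] at hc
    exact hp (by rw [hω']; simp [hc]))
  refine ⟨chi ω', ?_, ?_, ?_, h1⟩
  · intro n
    have := abs_ch ω' n
    rw [ch_eq] at this
    exact (abs_eq zero_le_one).1 this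
  · intro m n hm hn
    rw [← ch_eq, ← ch_eq, ← ch_eq]
    exact ch_mul ω' (by omega) (by omega)
  · intro p hp hpy
    unfold chi
    rw [hp.primeFactors, Finset.prod_singleton, hp.factorization_self, pow_one, hω', if_pos]
    simp [hpy]

end Pool.Agent.Results.MP_4f18df_nt.AlmostEveryTwist
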