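import Pool.Agent.Q255.L2.Eng
import Pool.Agent.Q299.L2.GlA
import Pool.Agent.Q299.L2.GlB
import Pool.Agent.Q299.L2.GlC
import Pool.Agent.Q150.L2.GLD
import Pool.Agent.Q38.L2.Pz
import Pool.Agent.Q275.L2.Cond
import Pool.Agent.Q154.L2.Glf
import Pool.Agent.Q96.EP.Lawe

/-!
# The Gaussian law of Good and Churchhouse for all joint laws of small information

Let `f` be completely multiplicative with the values `1`, `-1` at the primes. The signs at the primes may have any
joint law whatsoever; `I(x)` is the relative entropy (Kullback-Leibler divergence) of the law of the signs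
`f(p)`, `p ≤ x`, to independent fair signs.

1. If `I(x) ≤ x^{o(1)}`, then for every function `g` with the values `1`, `-1`, almost surely the sums of `g μ f` over the
intervals `|n - x| < H/2`, `x` uniform in `[X, 2X]`, divided by `√(H/ζ(2))`, tend to the normal law, for all `H = H(X)` with
`X^ε < H < X^{1-ε}`; and the same holds after any change of `f` at finitely many primes.
2. For every `0 < δ < 1` there is a law with `I(x) = O(x^δ)` for which this fails for `μ f` almost surely.
-/

set_option autoImplicit false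

namespace Pool.Agent.Results.MP_4f18df_nt.GaussianLawAtSmallInfo

open Finset Filter Topology MeasureTheory

/-- the sign at the prime with the number `k` (`2` has the number `0`) -/
def sign (ω : ℕ → Bool) (k : ℕ) : ℝ := if ω k then 1 else -1

/-- `f(n) = ∏_p f(p)^{v_p(n)}`, the completely multiplicative function with the sign `ω k` at the prime with the
number `k` (`Nat.count Nat.Prime p` is the number of the primes less than `p`) -/
noncomputable def f (ω : ℕ → Bool) (n : ℕ) : ℝ :=
  n.factorization.prod fun p j => sign ω (Nat.count Nat.Prime p) ^ j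

/-- `I(x)`: the relative entropy `∑_s q(s) log (2^n q(s))` of the law `q` of the signs at the `n = π(x)` primes
`p ≤ x` to independent fair signs, in nats -/
noncomputable def information (ν : Measure (ℕ → Bool)) (x : ℕ) : ℝ :=
  ∑ s : Fin (Nat.primeCounting x) → Bool, ν.real {ω | ∀ k : Fin (Nat.primeCounting x), ω k = s k} *
    Real.log (2 ^ Nat.primeCounting x *
      ν.real {ω | ∀ k : Fin (Nat.primeCounting x), ω k = s k})

/-- `I(x) ≤ x^{o(1)}` -/
def SmallInformation (ν : Measure (ℕ → Bool)) : Prop :=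
  ∀ ε : ℝ, 0 < ε → ∀ᶠ x : ℕ in atTop, information ν x ≤ (x : ℝ) ^ ε

/-- the Moebius function -/
noncomputable def moeb (n : ℕ) : ℝ := ((ArithmeticFunction.moebius n : ℤ) : ℝ)

/-- the statement of the problem for a function `a` in place of the Moebius function: for every
`ε ∈ (0, 1/2)` and every `H` with `X ^ ε < H X < X ^ (1 - ε)` for large `X`, the proportion of the `x ∈ [X, 2X]` for
which the sum of `a` over `|n - x| < H / 2`, divided by `√(H/ζ(2))`, is at most `t` tends to the distribution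
function of the standard normal law at `t` -/
def GaussianLaw (a : ℕ → ℝ) : Prop :=
  ∀ ε : ℝ, 0 < ε → ε < 1 / 2 →
    ∀ H : ℝ → ℝ,
      (∀ᶠ X in Filter.atTop, X ^ ε < H X ∧ H X < X ^ (1 - ε)) →
      ∀ t : ℝ,
        Filter.Tendsto
          (fun X : ℝ =>
            (MeasureTheory.volume
              {x : ℝ | x ∈ Set.Icc X (2 * X) ∧
                (∑ n ∈ (Finset.range (⌊x + H X⌋₊ + 1)).filter
                    (fun n : ℕ => |(n : ℝ) - x| < H X / 2), a n)
                  / Real.sqrt (H X / (Real.pi ^ 2 / 6)) ≤ t}).toReal / X)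
          Filter.atTop
          (nhds (ProbabilityTheory.cdf (ProbabilityTheory.gaussianReal 0 1) t))

/-! ## Translation -/

open Pool.Agent.Q255.EP

theorem info_eq (ν : Measure (ℕ → Bool)) [IsProbabilityMeasure ν] (x : ℕ) :
    information ν x = Pool.Agent.Q255.IR.D ν (Nat.primeCounting x) := D_eq_sum ν _

theorem small_iff (ν : Measure (ℕ → Bool)) [IsProbabilityMeasure ν] :
    SmallInformation ν ↔ ∀ ε : ℝ, 0 < ε → ∀ᶠ x : ℕ in atTop,
      Pool.Agent.Q255.IR.D ν (Nat.primeCounting x) ≤ (x : ℝ) ^ ε := by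
  unfold SmallInformation
  simp only [info_eq]

theorem upper (ν : Measure (ℕ → Bool)) [IsProbabilityMeasure ν] (hν : SmallInformation ν)
    (g : ℕ → ℝ) (hg : ∀ n, g n = 1 ∨ g n = -1) :
    ∀ᵐ ω ∂ν, ∀ ω' : ℕ → Bool, {k | ω' k ≠ ω k}.Finite →
      GaussianLaw fun n => g n * moeb n * f ω' n := by
  refine Pool.Agent.Q255.L2.ae_fin0 (fun ν' _ hν' => ?_) ν ((small_iff ν).1 hν)
  filter_upwards [Pool.Agent.Q299.L2.glc Pool.Agent.Q255.L2.t_ENG2 Pool.Agent.Q299.L2.t_GLA
    Pool.Agent.Q299.L2.t_GLB ν' hν' g hg] with ω hω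
  refine Pool.Agent.Q150.L2.gld (fun n => g n * moeb n * f ω n) fun k ε hε η hη => ?_
  obtain ⟨c, C, hc, hC, h⟩ := hω k ε hε
  have h1 : Tendsto (fun N : ℕ => C * (N : ℝ) ^ (-c)) atTop (𝓝 (C * 0)) :=
    ((tendsto_rpow_neg_atTop hc).comp tendsto_natCast_atTop_atTop).const_mul C
  rw [mul_zero] at h1
  obtain ⟨N0, hN0⟩ := eventually_atTop.1 (h1.eventually (eventually_le_nhds hη))
  refine ⟨max N0 1, fun N h' hN hl hu => ?_⟩
  exact (h N h' ((le_max_right _ _).trans hN) hl hu).trans (hN0 N ((le_max_left _ _).trans hN))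

theorem lower {δ : ℝ} (hδ0 : 0 < δ) (hδ : δ < 1) :
    ∃ ν : Measure (ℕ → Bool), IsProbabilityMeasure ν ∧
      (∃ C : ℝ, ∀ x : ℕ, 1 ≤ x → information ν x ≤ C * (x : ℝ) ^ δ) ∧
      ∀ᵐ ω ∂ν, ¬ GaussianLaw fun n => moeb n * f ω n := by
  obtain ⟨ν, hν, ⟨C, hC⟩, h⟩ := Pool.Agent.Q154.L2.glf Pool.Agent.Q38.L2.pz Pool.Agent.Q275.L2.cond
    Pool.Agent.Q96.EP.lawe δ hδ0 hδ
  refine ⟨ν, hν, ⟨C, fun x hx => ?_⟩, ?_⟩
  · rw [info_eq]
    exact hC x hx
  · filter_upwards [h] with ω hω
    exact hω

/-- **The Gaussian law of Good and Churchhouse for all joint laws of small information.**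

1. `I(x) ≤ x^{o(1)}`: for every `g` with values `1`, `-1`, almost surely, for every `f'` equal to `f` at all but finitely
many primes, the Gaussian law holds for `g μ f'` in place of `μ`.
2. For every `0 < δ < 1` there is a law with `I(x) ≤ C x^δ` such that almost surely the Gaussian law fails for `μ f`. -/
theorem result :
    (∀ (ν : Measure (ℕ → Bool)) [IsProbabilityMeasure ν], SmallInformation ν →
      ∀ g : ℕ → ℝ, (∀ n, g n = 1 ∨ g n = -1) →
        ∀ᵐ ω ∂ν, ∀ ω' : ℕ → Bool, {k | ω' k ≠ ω k}.Finite →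
          GaussianLaw fun n => g n * moeb n * f ω' n) ∧
    (∀ δ : ℝ, 0 < δ → δ < 1 → ∃ ν : Measure (ℕ → Bool), IsProbabilityMeasure ν ∧
      (∃ C : ℝ, ∀ x : ℕ, 1 ≤ x → information ν x ≤ C * (x : ℝ) ^ δ) ∧
      ∀ᵐ ω ∂ν, ¬ GaussianLaw fun n => moeb n * f ω n) :=
  ⟨fun ν _ hν g hg => upper ν hν g hg, fun _ h0 h1 => lower h0 h1⟩

end Pool.Agent.Results.MP_4f18df_nt.GaussianLawAtSmallInfo
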