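import Pool.Agent.Q97.UM.Ap2

set_option autoImplicit false

/-!
# MP_4f18df_nt: the mean square of Moebius sums over the intervals `(x, (1 + h) x]`

Unconditionally there is `c > 0` such that for every `0 < h ≤ 1` the mean square of `∑_{x < n ≤ (1 + h) x} μ(n)`, divided by the length `h x` of the
interval and taken with respect to `dx / x` over `1 ≤ x ≤ X`, is at least `c` for all large `X`; and this remains true after any combination of
`x^(1/2 + i l)` with `|l| ≤ 1 / (2 h)` has been subtracted from the sum.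
-/

namespace Pool.Agent.Results.MP_4f18df_nt.LongestIntervals

open Filter Topology MeasureTheory Complex

noncomputable section

/-- the sum of `μ(n)` over `x < n ≤ (1 + h) x`, an interval of length `H = h x` -/
def S (h x : ℝ) : ℝ := ∑ n ∈ Finset.Ioc ⌊x⌋₊ ⌊(1 + h) * x⌋₊, ((ArithmeticFunction.moebius n : ℤ) : ℝ)

/-- the sum divided by the square root of `H / ζ(2)`, `ζ(2) = π² / 6`, `H = h x` -/
def Z (h x : ℝ) : ℝ := S h x / Real.sqrt (h * x / (Real.pi ^ 2 / 6))

/-- the mean of `g` over `1 ≤ x ≤ e^V` with respect to `dx / x`, in the variable `v = log x` -/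
def logMean (g : ℝ → ℝ) (V : ℝ) : ℝ := (∫ v in (0:ℝ)..V, g (Real.exp v)) / V

/-- the combinations of `x^(1/2 + i l)` with `|l| ≤ T` -/
def Waves (T : ℝ) : Set (ℝ → ℂ) :=
  {P | ∃ (K : Finset ℝ) (a : ℝ → ℂ), (∀ l ∈ K, |l| ≤ T) ∧ ∀ x : ℝ, P x = Real.sqrt x * ∑ l ∈ K, a l * cexp (I * l * Real.log x)}

open Pool.Agent.TH223.AP Pool.Agent.Q97.UM.Ap

/-- the sum over the interval is a difference of two values of the Mertens function -/
lemma S_eq {h : ℝ} (hh : 0 < h) (v : ℝ) : S h (Real.exp v) = gd (Real.log (1 + h)) v * Real.exp (v / 2) := by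
  have h1 : Real.exp (v + Real.log (1 + h)) = (1 + h) * Real.exp v := by
    rw [Real.exp_add, Real.exp_log (by linarith)]
    ring
  have h2 : ⌊Real.exp v⌋₊ ≤ ⌊(1 + h) * Real.exp v⌋₊ := Nat.floor_le_floor (by nlinarith [Real.exp_pos v])
  have h3 : S h (Real.exp v) = (∑ n ∈ Finset.Icc 1 ⌊(1 + h) * Real.exp v⌋₊, ((ArithmeticFunction.moebius n : ℤ) : ℝ)) -
      ∑ n ∈ Finset.Icc 1 ⌊Real.exp v⌋₊, ((ArithmeticFunction.moebius n : ℤ) : ℝ) := by
    unfold S
    rw [eq_sub_iff_add_eq, add_comm]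
    have e1 : Finset.Icc 1 ⌊(1 + h) * Real.exp v⌋₊ = Finset.Icc 1 ⌊Real.exp v⌋₊ ∪ Finset.Ioc ⌊Real.exp v⌋₊ ⌊(1 + h) * Real.exp v⌋₊ := by
      ext n
      simp only [Finset.mem_union, Finset.mem_Icc, Finset.mem_Ioc]
      omega
    rw [e1, Finset.sum_union]
    rw [Finset.disjoint_left]
    intro n hn hn'
    rw [Finset.mem_Icc] at hn
    rw [Finset.mem_Ioc] at hn'
    omega
  rw [h3]
  unfold gd ft
  rw [h1]
  have h4 : Real.exp (Real.log (1 + h) / 2) * Real.exp (-((v + Real.log (1 + h)) / 2)) * Real.exp (v / 2) = 1 := by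
    rw [← Real.exp_add, ← Real.exp_add, ← Real.exp_zero]
    congr 1
    ring
  have h5 : Real.exp (-(v / 2)) * Real.exp (v / 2) = 1 := by
    rw [← Real.exp_add, ← Real.exp_zero]
    congr 1
    ring
  set A := ∑ n ∈ Finset.Icc 1 ⌊(1 + h) * Real.exp v⌋₊, ((ArithmeticFunction.moebius n : ℤ) : ℝ) with hA
  set B := ∑ n ∈ Finset.Icc 1 ⌊Real.exp v⌋₊, ((ArithmeticFunction.moebius n : ℤ) : ℝ) with hB
  linear_combination (-A) * h4 + B * h5

/-- **mean squares of Moebius sums over the intervals `(x, (1 + h) x]`** -/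
theorem result : ∃ c : ℝ, 0 < c ∧ ∀ h : ℝ, 0 < h → h ≤ 1 →
    (∀ᶠ V : ℝ in atTop, c ≤ logMean (fun x => Z h x ^ 2) V) ∧
    ∀ P ∈ Waves (1 / (2 * h)), ∀ᶠ V : ℝ in atTop, c * h ≤ logMean (fun x => ‖((S h x : ℝ) : ℂ) - P x‖ ^ 2 / x) V := by
  obtain ⟨c, hc, H⟩ := incr
  have key : ∀ h : ℝ, 0 < h → h ≤ 1 → ∀ P ∈ Waves (1 / (2 * h)), ∀ᶠ V : ℝ in atTop,
      c / 2 * h ≤ logMean (fun x => ‖((S h x : ℝ) : ℂ) - P x‖ ^ 2 / x) V := by
    rintro h hh hh1 P ⟨K, a, hK, hP⟩
    have hl0 : 0 < Real.log (1 + h) := Real.log_pos (by linarith)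
    have hl1 : Real.log (1 + h) ≤ h := by
      have := Real.log_le_sub_one_of_pos (show 0 < 1 + h by linarith)
      linarith
    have hl2 : h / 2 ≤ Real.log (1 + h) := by
      have h1 := Real.one_sub_inv_le_log_of_pos (show 0 < 1 + h by linarith)
      have h2 : h / 2 ≤ 1 - (1 + h)⁻¹ := by
        have : 1 - (1 + h)⁻¹ = h / (1 + h) := by field_simp; ring
        rw [this]
        exact div_le_div_of_nonneg_left hh.le (by linarith) (by linarith)
      linarith
    have hK' : ∀ l ∈ K, |l| ≤ 1 / (2 * Real.log (1 + h)) := by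
      intro l hl
      refine (hK l hl).trans ?_
      apply div_le_div_of_nonneg_left (by norm_num) (by linarith)
      linarith
    filter_upwards [H (Real.log (1 + h)) hl0 (by linarith) K a hK'] with V hV
    refine le_trans (by nlinarith) (hV.trans (le_of_eq ?_))
    unfold mn logMean
    congr 1
    refine intervalIntegral.integral_congr fun v _ => ?_
    show ‖((gd (Real.log (1 + h)) v : ℝ) : ℂ) - trig K a v‖ ^ 2 = ‖((S h (Real.exp v) : ℝ) : ℂ) - P (Real.exp v)‖ ^ 2 / Real.exp v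
    have e1 : Real.sqrt (Real.exp v) = Real.exp (v / 2) := by
      rw [Real.sqrt_eq_rpow, ← Real.exp_mul]
      congr 1
      ring
    have e2 : ((S h (Real.exp v) : ℝ) : ℂ) - P (Real.exp v) = (Real.exp (v / 2) : ℝ) * (((gd (Real.log (1 + h)) v : ℝ) : ℂ) - trig K a v) := by
      rw [S_eq hh, hP, e1, Real.log_exp]
      unfold trig
      push_cast
      ring
    have e3 : Real.exp v = Real.exp (v / 2) ^ 2 := by
      rw [← Real.exp_nat_mul]
      congr 1
      push_cast
      ring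
    rw [e2, norm_mul, Complex.norm_real, Real.norm_eq_abs, abs_of_pos (Real.exp_pos _), mul_pow, ← e3]
    field_simp
  refine ⟨c / 2, by positivity, ?_⟩
  intro h hh hh1
  refine ⟨?_, key h hh hh1⟩
  have h0 : (fun _ : ℝ => (0 : ℂ)) ∈ Waves (1 / (2 * h)) := ⟨∅, fun _ => 0, by simp, by simp⟩
  filter_upwards [key h hh hh1 _ h0, eventually_gt_atTop 0] with V hV hV0
  have e1 : logMean (fun x => Z h x ^ 2) V = (Real.pi ^ 2 / 6) / h * logMean (fun x => ‖((S h x : ℝ) : ℂ) - 0‖ ^ 2 / x) V := by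
    unfold logMean
    rw [← mul_div_assoc, ← intervalIntegral.integral_const_mul]
    congr 1
    refine intervalIntegral.integral_congr fun v _ => ?_
    show Z h (Real.exp v) ^ 2 = (Real.pi ^ 2 / 6) / h * (‖((S h (Real.exp v) : ℝ) : ℂ) - 0‖ ^ 2 / Real.exp v)
    have hpos : 0 < h * Real.exp v / (Real.pi ^ 2 / 6) := by positivity
    unfold Z
    rw [div_pow, Real.sq_sqrt hpos.le, sub_zero, Complex.norm_real, Real.norm_eq_abs, sq_abs]
    have := Real.exp_pos v
    field_simp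
  rw [e1]
  have hpi : 1 ≤ Real.pi ^ 2 / 6 := by
    have := Real.pi_gt_three
    nlinarith
  have h2 : 1 / h ≤ Real.pi ^ 2 / 6 / h := div_le_div_of_nonneg_right hpi hh.le
  have h3 : 0 ≤ c / 2 * h := by positivity
  calc c / 2 = 1 / h * (c / 2 * h) := by field_simp
    _ ≤ Real.pi ^ 2 / 6 / h * (c / 2 * h) := mul_le_mul_of_nonneg_right h2 h3
    _ ≤ _ := mul_le_mul_of_nonneg_left hV (by positivity)

end

end Pool.Agent.Results.MP_4f18df_nt.LongestIntervals
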