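import Pool.Agent.Q152.QT.Final

set_option autoImplicit false

/-!
# The Gaussian law of Good and Churchhouse for the Moebius function twisted by almost every quadratic symbol

For a function `g` with values `1` and `-1` and an odd modulus `m` consider `g(n) μ(n) (n/m)`, with the Jacobi
symbol. For all but `P / log ^ B P` of the primes `p ≤ P` the sums of `g(n) μ(n) (n/p)` over the windows of length
`H` with centre uniform on `[X, 2X]`, divided by `√(H/ζ(2))`, have the normal distribution function up to `δ`,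
simultaneously for all `X` with `log ^ C P ≤ X ≤ P ^ (1/A)` and all `H` with `X ^ ε ≤ H ≤ X ^ (1-ε)`. The same
is proved for all but `P / log ^ B P` of the odd moduli `m ≤ P` and all these `X` with `6 X` below all the prime
factors of `m`.
-/

namespace Pool.Agent.Results.MP_4f18df_nt.QuadraticTwists

open Finset Filter Topology MeasureTheory Pool.Agent.Q163.GC Pool.Agent.Q152.QT

/-- The sum of `g(n) μ(n) (n/m)` over the integers `n` with `|n - x| < H / 2`; `(n/m)` is the Jacobi symbol. -/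
noncomputable def M (g : ℕ → ℝ) (m : ℕ) (x H : ℝ) : ℝ :=
  ∑ n ∈ (Finset.range (⌊x + H⌋₊ + 1)).filter (fun n : ℕ => |(n : ℝ) - x| < H / 2),
    g n * ((ArithmeticFunction.moebius n : ℤ) : ℝ) * ((jacobiSym (n : ℤ) m : ℤ) : ℝ)

/-- The proportion of the `x` in `[X, 2X]` for which `M g m x H / √(H/ζ(2))` is at most `t`. -/
noncomputable def proportion (g : ℕ → ℝ) (m : ℕ) (X H t : ℝ) : ℝ :=
  (volume {x : ℝ | x ∈ Set.Icc X (2 * X) ∧
    M g m x H / Real.sqrt (H / (Real.pi ^ 2 / 6)) ≤ t}).toReal / X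

/-- For every length `H` with `X ^ ε ≤ H ≤ X ^ (1 - ε)` and every `t` the proportion differs by at most `δ` from the
distribution function of the standard normal law at `t`. -/
def Close (g : ℕ → ℝ) (m : ℕ) (ε δ X : ℝ) : Prop :=
  ∀ H : ℝ, X ^ ε ≤ H → H ≤ X ^ (1 - ε) → ∀ t : ℝ,
    |proportion g m X H t - ProbabilityTheory.cdf (ProbabilityTheory.gaussianReal 0 1) t| ≤ δ

lemma M_eq (g : ℕ → ℝ) (m : ℕ) (x H : ℝ) : M g m x H = Mf (fm g m) x H := by
  unfold M Mf fm Pool.Agent.Y293.SF.mu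
  refine Finset.sum_congr ?_ fun _ _ => rfl
  ext n
  rw [Finset.mem_filter, Finset.mem_filter, Finset.mem_range, Finset.mem_range]
  refine and_congr_left fun hc => ?_
  have h1 : (n : ℝ) ≤ x + H := by
    have h3 := (abs_lt.1 hc).2
    have h4 := lt_of_le_of_lt (abs_nonneg _) hc
    linarith
  constructor
  · intro _
    have h2 : (n : ℝ) ≤ ⌈x + H⌉₊ := h1.trans (Nat.le_ceil _)
    have : n ≤ ⌈x + H⌉₊ := by exact_mod_cast h2
    omega
  · intro _
    have := Nat.le_floor h1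
    omega

lemma proportion_eq (g : ℕ → ℝ) (m : ℕ) (X H t : ℝ) (hH : 0 < H) :
    proportion g m X H t = (volume {x : ℝ | x ∈ Set.Icc X (2 * X) ∧ Mf (fm g m) x H ≤
      t * √(6 / Real.pi ^ 2 * H)}).toReal / X := by
  unfold proportion
  have e : H / (Real.pi ^ 2 / 6) = 6 / Real.pi ^ 2 * H := by
    have := Real.pi_pos
    field_simp
  have hs : 0 < √(6 / Real.pi ^ 2 * H) := Real.sqrt_pos.2 (by positivity)
  simp only [M_eq, e, div_le_iff₀ hs]

lemma close_of (g : ℕ → ℝ) (m : ℕ) (ε δ X : ℝ) (hX : 0 < X)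
    (h : ∀ H : ℝ, X ^ ε ≤ H → H ≤ X ^ (1 - ε) → ∀ t : ℝ,
      |(volume {x : ℝ | x ∈ Set.Icc X (2 * X) ∧ Mf (fm g m) x H ≤
        t * √(6 / Real.pi ^ 2 * H)}).toReal / X - Q282MM.Phi t| ≤ δ) : Close g m ε δ X := by
  intro H h1 h2 t
  have hH : 0 < H := lt_of_lt_of_le (Real.rpow_pos_of_pos hX _) h1
  rw [proportion_eq g m X H t hH, ProbabilityTheory.cdf_eq_real]
  exact h H h1 h2 t

/-- **The Gaussian law for almost all quadratic twists.** Let `0 < ε < 1/2`, `δ > 0` and `B` be given. There are `A`,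
`C`, `P₀` such that for all `P ≥ P₀` and all functions `g` with values `1` and `-1`:
* for all but at most `P / log ^ B P` of the primes `p ≤ P`, `Close g p ε δ X` holds for all real `X` with
  `log ^ C P ≤ X` and `X ^ A ≤ P`;
* for all but at most `P / log ^ B P` of the odd `m ≤ P`, `Close g m ε δ X` holds for all real `X` with
  `log ^ C P ≤ X`, `X ^ A ≤ P` and `6 X` smaller than all prime factors of `m`. -/
theorem result (ε δ : ℝ) (B : ℕ) (hε : 0 < ε) (hε1 : ε < 1 / 2) (hδ : 0 < δ) :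
    ∃ A C P₀ : ℕ, ∀ (g : ℕ → ℝ) (P : ℕ), (∀ n, g n = 1 ∨ g n = -1) → P₀ ≤ P →
      (({p : ℕ | p ≤ P ∧ p.Prime ∧ ¬ ∀ X : ℝ, Real.log P ^ C ≤ X → X ^ A ≤ P →
        Close g p ε δ X}.ncard : ℕ) : ℝ) ≤ P / Real.log P ^ B ∧
      (({m : ℕ | m ≤ P ∧ Odd m ∧ ¬ ∀ X : ℝ, Real.log P ^ C ≤ X → X ^ A ≤ P →
        (∀ q : ℕ, q.Prime → q ∣ m → 6 * X < q) → Close g m ε δ X}.ncard : ℕ) : ℝ) ≤
        P / Real.log P ^ B := by
  obtain ⟨A, C, P₀, hA, H⟩ := law_real ε δ (B + 1) hε hε1 hδ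
  -- the small primes
  obtain ⟨P₁, hP₁⟩ : ∃ P₁ : ℕ, ∀ P : ℕ, P₁ ≤ P → 3 ≤ P ∧ 2 ≤ Real.log P ∧
      (6 * √(P : ℝ) + 1) * Real.log P ^ (B + 1) ≤ P := by
    have h1 := (Real.isLittleO_pow_log_id_atTop (n := B + 1)).bound (c := 1 / (7 * 2 ^ (B + 1))) (by positivity)
    have h2 : Tendsto (fun P : ℕ => √(P : ℝ)) atTop atTop :=
      (Real.tendsto_sqrt_atTop).comp tendsto_natCast_atTop_atTop
    have h3 := h2.eventually h1
    have h4 := (Real.tendsto_log_atTop.comp (tendsto_natCast_atTop_atTop (R := ℝ))).eventually_ge_atTop 2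
    have h5 := h3.and (h4.and (eventually_ge_atTop 3))
    obtain ⟨P₁, hP₁⟩ := eventually_atTop.1 h5
    refine ⟨P₁, fun P hP => ?_⟩
    obtain ⟨a1, a2, a3⟩ := hP₁ P hP
    refine ⟨a3, a2, ?_⟩
    have hP1 : (1 : ℝ) ≤ P := by exact_mod_cast (by omega : 1 ≤ P)
    have hP0 : (0 : ℝ) < P := by linarith
    have hs1 : 1 ≤ √(P : ℝ) := Real.one_le_sqrt.2 hP1
    have hlog : Real.log √(P : ℝ) = Real.log P / 2 := Real.log_sqrt hP0.le
    rw [hlog, id, Real.norm_of_nonneg (by positivity), Real.norm_of_nonneg (by positivity)] at a1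
    have a4 : Real.log P ^ (B + 1) ≤ √(P : ℝ) / 7 := by
      have e1 : (Real.log P / 2) ^ (B + 1) = Real.log P ^ (B + 1) / 2 ^ (B + 1) := div_pow _ _ _
      rw [e1, div_le_iff₀ (by positivity)] at a1
      refine a1.trans (le_of_eq ?_)
      field_simp
    calc (6 * √(P : ℝ) + 1) * Real.log P ^ (B + 1) ≤ (7 * √(P : ℝ)) * (√(P : ℝ) / 7) :=
          mul_le_mul (by linarith) a4 (by positivity) (by positivity)
      _ = √(P : ℝ) * √(P : ℝ) := by ring
      _ = P := Real.mul_self_sqrt hP0.le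
  refine ⟨A, C, max P₀ P₁, fun g P hg hP => ?_⟩
  obtain ⟨hP3, hl2, hsm⟩ := hP₁ P ((le_max_right _ _).trans hP)
  obtain ⟨E, hE, L⟩ := H g P hg ((le_max_left _ _).trans hP)
  have hP1 : (1 : ℝ) ≤ P := by exact_mod_cast (by omega : 1 ≤ P)
  have hP0 : (0 : ℝ) < P := by linarith
  set l := Real.log P with hl
  have hl0 : 0 < l := by linarith
  have hXpos : ∀ X : ℝ, l ^ C ≤ X → 0 < X := fun X hX => lt_of_lt_of_le (by positivity) hX
  have hEB : (P : ℝ) / l ^ (B + 1) ≤ P / l ^ B / 2 := by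
    rw [pow_succ, div_div, div_le_div_iff₀ (by positivity) (by positivity)]
    have : 0 < l ^ B := by positivity
    nlinarith [mul_pos hP0 this]
  have hpos : 0 ≤ (P : ℝ) / l ^ B := by positivity
  constructor
  · set S : Finset ℕ := range (⌊6 * √(P : ℝ)⌋₊ + 1) with hS
    have hsub : {p : ℕ | p ≤ P ∧ p.Prime ∧ ¬ ∀ X : ℝ, l ^ C ≤ X → X ^ A ≤ P → Close g p ε δ X} ⊆
        ((E ∪ S : Finset ℕ) : Set ℕ) := by
      rintro p ⟨p1, p2, p3⟩
      rw [coe_union, Set.mem_union, mem_coe, mem_coe]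
      by_contra hcon
      rw [not_or] at hcon
      have hbig : 6 * √(P : ℝ) < p := by
        have : ⌊6 * √(P : ℝ)⌋₊ < p := by
          have := hcon.2
          rw [hS, mem_range] at this
          omega
        exact (Nat.floor_lt (by positivity)).1 this
      apply p3
      intro X hX1 hX2
      have hX0 := hXpos X hX1
      have hX3 : X ≤ √(P : ℝ) := by
        apply Real.le_sqrt_of_sq_le
        rcases le_total 1 X with h1 | h1
        · exact (pow_le_pow_right₀ h1 hA).trans hX2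
        · exact (pow_le_one₀ hX0.le h1).trans hP1
      have hodd : Odd p := by
        rcases p2.eq_two_or_odd' with h2 | h2
        · exfalso
          have : 1 ≤ √(P : ℝ) := Real.one_le_sqrt.2 hP1
          rw [h2] at hbig
          push_cast at hbig
          linarith
        · exact h2
      refine close_of g p ε δ X hX0 fun H h1 h2 t => ?_
      refine L p p1 hodd hcon.1 X H hX1 hX2 (fun q hq hqd => ?_) h1 h2 t
      rw [(Nat.prime_dvd_prime_iff_eq hq p2).1 hqd]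
      linarith
    have c1 : {p : ℕ | p ≤ P ∧ p.Prime ∧ ¬ ∀ X : ℝ, l ^ C ≤ X → X ^ A ≤ P → Close g p ε δ X}.ncard ≤
        (E ∪ S).card := by
      rw [← Set.ncard_coe_finset (E ∪ S)]
      exact Set.ncard_le_ncard hsub (finite_toSet _)
    have c2 : ((E ∪ S).card : ℝ) ≤ E.card + S.card := by exact_mod_cast card_union_le _ _
    have c3 : (S.card : ℝ) ≤ 6 * √(P : ℝ) + 1 := by
      rw [hS, card_range]
      push_cast
      linarith [Nat.floor_le (by positivity : 0 ≤ 6 * √(P : ℝ))]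
    have c4 : 6 * √(P : ℝ) + 1 ≤ P / l ^ (B + 1) := by
      rw [le_div_iff₀ (by positivity)]
      exact hsm
    have c5 : (({p : ℕ | p ≤ P ∧ p.Prime ∧ ¬ ∀ X : ℝ, l ^ C ≤ X → X ^ A ≤ P →
        Close g p ε δ X}.ncard : ℕ) : ℝ) ≤ (E ∪ S).card := by exact_mod_cast c1
    linarith
  · have hsub : {m : ℕ | m ≤ P ∧ Odd m ∧ ¬ ∀ X : ℝ, l ^ C ≤ X → X ^ A ≤ P →
        (∀ q : ℕ, q.Prime → q ∣ m → 6 * X < q) → Close g m ε δ X} ⊆ (E : Set ℕ) := by
      rintro m ⟨m1, m2, m3⟩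
      rw [mem_coe]
      by_contra hcon
      apply m3
      intro X hX1 hX2 hX3
      exact close_of g m ε δ X (hXpos X hX1) fun H h1 h2 t => L m m1 m2 hcon X H hX1 hX2 hX3 h1 h2 t
    have c1 : {m : ℕ | m ≤ P ∧ Odd m ∧ ¬ ∀ X : ℝ, l ^ C ≤ X → X ^ A ≤ P →
        (∀ q : ℕ, q.Prime → q ∣ m → 6 * X < q) → Close g m ε δ X}.ncard ≤ E.card := by
      rw [← Set.ncard_coe_finset E]
      exact Set.ncard_le_ncard hsub (finite_toSet _)
    have c5 : (({m : ℕ | m ≤ P ∧ Odd m ∧ ¬ ∀ X : ℝ, l ^ C ≤ X → X ^ A ≤ P →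
        (∀ q : ℕ, q.Prime → q ∣ m → 6 * X < q) → Close g m ε δ X}.ncard : ℕ) : ℝ) ≤ E.card := by
      exact_mod_cast c1
    linarith

end Pool.Agent.Results.MP_4f18df_nt.QuadraticTwists
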